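import Pool.Agent.Helper69.MF.StA

/-!
Project MF (MP_9583f0_gt), module HTE: homotopy is an equivalence relation.
-/

set_option autoImplicit false

namespace Pool.Agent.Helper47.MF

open Set Topology Filter MeasureTheory
open Pool.Agent.Helper31.CY Pool.Agent.Helper69.MF

/-- clamping to the unit interval -/
noncomputable def pj (x : ℝ) : unitInterval := Set.projIcc 0 1 zero_le_one x

lemma pj_cont : Continuous pj := continuous_projIcc (h := zero_le_one)

lemma pj_zero : pj 0 = 0 := by
  unfold pj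
  exact Set.projIcc_of_le_left _ le_rfl

lemma pj_one : pj 1 = 1 := by
  unfold pj
  exact Set.projIcc_of_right_le _ le_rfl

lemma hrefl (Γ : Set E3) (γ : unitInterval → E3) (h : Lp Γ γ) : Hot Γ γ γ :=
  ⟨fun q => γ q.2, h.1.comp continuous_snd, fun _ => rfl, fun _ => rfl, fun _ => h.2.1,
    fun q => h.2.2 q.2⟩

lemma hsymm (Γ : Set E3) (γ γ' : unitInterval → E3) (h : Hot Γ γ γ') : Hot Γ γ' γ := by
  obtain ⟨H, h1, h2, h3, h4, h5⟩ := h
  refine ⟨fun q => H (unitInterval.symm q.1, q.2), ?_, ?_, ?_, ?_, ?_⟩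
  · exact h1.comp ((unitInterval.continuous_symm.comp continuous_fst).prodMk continuous_snd)
  · intro s
    simp only [unitInterval.symm_zero]
    exact h3 s
  · intro s
    simp only [unitInterval.symm_one]
    exact h2 s
  · intro t
    exact h4 _
  · intro q
    exact h5 _

lemma htrans (Γ : Set E3) (γ γ' γ'' : unitInterval → E3) (h : Hot Γ γ γ') (h' : Hot Γ γ' γ'') :
    Hot Γ γ γ'' := by
  obtain ⟨H, h1, h2, h3, h4, h5⟩ := h
  obtain ⟨K, k1, k2, k3, k4, k5⟩ := h'
  refine ⟨fun q => if (q.1 : ℝ) ≤ 1 / 2 then H (pj (2 * (q.1 : ℝ)), q.2)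
    else K (pj (2 * (q.1 : ℝ) - 1), q.2), ?_, ?_, ?_, ?_, ?_⟩
  · refine Continuous.if_le ?_ ?_ (continuous_subtype_val.comp continuous_fst)
      continuous_const ?_
    · exact h1.comp ((pj_cont.comp (continuous_const.mul
        (continuous_subtype_val.comp continuous_fst))).prodMk continuous_snd)
    · exact k1.comp ((pj_cont.comp ((continuous_const.mul
        (continuous_subtype_val.comp continuous_fst)).sub continuous_const)).prodMk
          continuous_snd)
    · intro q hq
      have e1 : 2 * (q.1 : ℝ) = 1 := by rw [hq]; norm_num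
      have e2 : 2 * (q.1 : ℝ) - 1 = 0 := by rw [e1]; norm_num
      rw [e2, e1, pj_zero, pj_one, h3, k2]
  · intro s
    have e0 : ((0 : unitInterval) : ℝ) ≤ 1 / 2 := by norm_num
    simp only [if_pos e0]
    have e1 : 2 * ((0 : unitInterval) : ℝ) = 0 := by norm_num
    rw [e1, pj_zero]
    exact h2 s
  · intro s
    have e0 : ¬ ((1 : unitInterval) : ℝ) ≤ 1 / 2 := by norm_num
    simp only [if_neg e0]
    have e1 : 2 * ((1 : unitInterval) : ℝ) - 1 = 1 := by norm_num
    rw [e1, pj_one]
    exact k3 s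
  · intro t
    simp only
    rw [h4, k4]
  · intro q
    simp only
    split_ifs
    · exact h5 _
    · exact k5 _

theorem hHTE : StHTE := by
  intro Γ
  refine ⟨hrefl Γ, hsymm Γ, htrans Γ, ?_, ?_, ?_⟩
  · rintro γ γ' ⟨H, h1, h2, h3, h4, h5⟩
    have e : γ' = fun s => H (1, s) := funext fun s => (h3 s).symm
    refine ⟨?_, ?_, ?_⟩
    · rw [e]
      exact h1.comp (continuous_const.prodMk continuous_id)
    · rw [← h3 0, ← h3 1]
      exact h4 1
    · intro s
      rw [← h3 s]
      exact h5 _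
  · intro Θ γ hΘ hΓ hγ
    refine ⟨fun q => Θ (q.1, γ q.2), ?_, fun _ => rfl, fun _ => rfl, ?_, ?_⟩
    · exact hΘ.comp (continuous_fst.prodMk (hγ.1.comp continuous_snd))
    · intro t
      simp only
      rw [hγ.2.1]
    · intro q
      exact hΓ _ _ (hγ.2.2 _)
  · rintro f γ γ' hf hΓ ⟨H, h1, h2, h3, h4, h5⟩
    refine ⟨fun q => f (H q), hf.comp h1, ?_, ?_, ?_, ?_⟩
    · intro s
      simp only
      rw [h2]
    · intro s
      simp only
      rw [h3]
    · intro t
      simp only
      rw [h4]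
    · intro q
      exact hΓ _ (h5 _)

end Pool.Agent.Helper47.MF
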